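import Pool.Agent.H.MP_b466f1_co.C

namespace Pool.Agent.Results.MP_b466f1_co.NotTuranable

open Pool.Agent.H.MP_b466f1_co

theorem result :
    (∃ H : Fin 11 → Fin 11 → Prop, Oriented H ∧ Contains (F 3) H ∧
      Contains (CycPow (2 * 5 + 1) 5) H ∧ ¬ Turanable H) ∧
    ¬ (∀ (V : Type) [Fintype V] (H : V → V → Prop), Oriented H →
      (Turanable H ↔ ∃ r k : ℕ, 1 ≤ r ∧ 1 ≤ k ∧ Contains (F r) H ∧
        Contains (CycPow (2 * k + 1) k) H)) :=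
  ⟨⟨HH, H_or, H_F, H_cyc, not_tur⟩, fun h =>
    not_tur ((h (Fin 11) HH H_or).2 ⟨3, 5, by norm_num, by norm_num, H_F, H_cyc⟩)⟩

end Pool.Agent.Results.MP_b466f1_co.NotTuranable
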